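import Mathlib

set_option autoImplicit false

/-! # Project CM (helper32), job DEG: comparison of degrees (core, without the board) -/

namespace Pool.Agent.V5helper11.CM

open MvPolynomial

variable {a : ℕ}

theorem aeval_monomial_hom (h : Fin a → MvPolynomial (Fin a) ℂ) (e : Fin a → ℕ)
    (hh : ∀ i, (h i).IsHomogeneous (e i)) (m : Fin a →₀ ℕ) (c : ℂ) :
    (aeval h (monomial m c)).IsHomogeneous (Finsupp.weight e m) := by
  rw [aeval_monomial]
  have h1 : (algebraMap ℂ (MvPolynomial (Fin a) ℂ) c).IsHomogeneous 0 := isHomogeneous_C _ c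
  have h2 : (m.prod fun i k => h i ^ k).IsHomogeneous (∑ i ∈ m.support, e i * m i) := by
    unfold Finsupp.prod
    exact IsHomogeneous.prod _ _ _ (fun i _ => (hh i).pow (m i))
  have h3 : Finsupp.weight e m = 0 + ∑ i ∈ m.support, e i * m i := by
    rw [Finsupp.weight_apply, zero_add, Finsupp.sum]
    apply Finset.sum_congr rfl
    intro i _
    rw [smul_eq_mul, mul_comm]
  rw [h3]
  exact h1.mul h2

theorem aeval_comp (h : Fin a → MvPolynomial (Fin a) ℂ) (e : Fin a → ℕ)
    (hh : ∀ i, (h i).IsHomogeneous (e i)) (k : ℕ) (P : MvPolynomial (Fin a) ℂ) :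
    aeval h (weightedHomogeneousComponent e k P) = homogeneousComponent k (aeval h P) := by
  induction P using MvPolynomial.induction_on' with
  | monomial m c =>
    have h1 := aeval_monomial_hom h e hh m c
    rw [homogeneousComponent_of_mem h1]
    have h2 : IsWeightedHomogeneous e (monomial m c) (Finsupp.weight e m) :=
      isWeightedHomogeneous_monomial e m c rfl
    rw [weightedHomogeneousComponent_of_mem h2]
    by_cases hk : k = Finsupp.weight e m
    · rw [if_pos hk, if_pos hk]
    · rw [if_neg hk, if_neg hk, map_zero]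
  | add p q hp hq => rw [map_add, map_add, hp, hq, map_add, map_add]

theorem deg_core (JACI : ∀ (n : ℕ) (f : Fin n → MvPolynomial (Fin n) ℂ),
      AlgebraicIndependent ℂ f ↔ (Matrix.of fun i j => pderiv j (f i)).det ≠ 0)
    (a : ℕ) (h f : Fin a → MvPolynomial (Fin a) ℂ) (e d : Fin a → ℕ)
    (hh : ∀ i, (h i).IsHomogeneous (e i)) (hf : ∀ i, (f i).IsHomogeneous (d i))
    (hf' : AlgebraicIndependent ℂ f)
    (hP : ∀ i, ∃ P : MvPolynomial (Fin a) ℂ, f i = aeval h P) :
    ∃ π : Equiv.Perm (Fin a), ∀ i, e (π i) ≤ d i := by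
  classical
  choose P hP using hP
  set Q : Fin a → MvPolynomial (Fin a) ℂ := fun i => weightedHomogeneousComponent e (d i) (P i)
    with hQ
  have hQf : ∀ i, aeval h (Q i) = f i := by
    intro i
    rw [hQ]
    simp only
    rw [aeval_comp h e hh, ← hP i, homogeneousComponent_of_mem (hf i), if_pos rfl]
  have hQh : ∀ i, IsWeightedHomogeneous e (Q i) (d i) := fun i => by
    rw [hQ]; exact
    weightedHomogeneousComponent_isWeightedHomogeneous (d i) (P i)
  have hQi : AlgebraicIndependent ℂ Q := by
    rw [algebraicIndependent_iff] at hf' ⊢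
    intro R hR
    apply hf'
    have h1 : aeval f R = aeval h (aeval Q R) := by
      have h2 : (fun i => aeval h (Q i)) = f := funext hQf
      rw [← h2]
      have : (aeval (fun i => aeval h (Q i)) : MvPolynomial (Fin a) ℂ →ₐ[ℂ] _) =
          (aeval h).comp (aeval Q) := by
        apply MvPolynomial.algHom_ext
        intro i
        simp
      rw [this]
      rfl
    rw [h1, hR, map_zero]
  have hdet := (JACI a Q).1 hQi
  rw [Matrix.det_apply] at hdet
  obtain ⟨σ, -, hσ⟩ := Finset.exists_ne_zero_of_sum_ne_zero hdet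
  have hσ' : ∀ i, pderiv i (Q (σ i)) ≠ 0 := by
    intro i hi
    apply hσ
    have : (∏ j, (Matrix.of fun i j => pderiv j (Q i)) (σ j) j) = 0 :=
      Finset.prod_eq_zero (Finset.mem_univ i) (by simpa using hi)
    rw [this, smul_zero]
  refine ⟨σ.symm, fun k => ?_⟩
  have h1 := hσ' (σ.symm k)
  rw [Equiv.apply_symm_apply] at h1
  have h2 : σ.symm k ∈ (Q k).vars := by
    by_contra hc
    exact h1 (pderiv_eq_zero_of_notMem_vars hc)
  rw [mem_vars] at h2
  obtain ⟨m, hm, hmk⟩ := h2
  have h3 : Finsupp.weight e m = d k := hQh k (by rwa [mem_support_iff] at hm)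
  rw [← h3]
  exact Finsupp.le_weight_of_ne_zero' e (by rwa [Finsupp.mem_support_iff] at hmk)

end Pool.Agent.V5helper11.CM
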