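import Pool.Agent.V5helper32.CM.Stm5
import Pool.Agent.V5helper11.CM.DEGcore

set_option autoImplicit false

/-! # Project CM (helper32), job DEG -/

namespace Pool.Agent.V5helper11.CM

open Pool.Agent.V5helper32.CM

theorem t_DEG (JACI : S_JACI) : S_DEG := by
  intro a h f e d hh hf _ hf' _ hP
  exact deg_core JACI a h f e d hh hf hf' hP

end Pool.Agent.V5helper11.CM
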